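import Pool.Agent.Q119.SU.Step
import Pool.Agent.H818R2.Ram.Erdos

set_option autoImplicit false

open Finset

namespace Q119.SU

/-- the red 4-sets -/
def redS (A : ℕ → ℕ → Prop) (e : Finset ℕ) : Prop :=
  ∃ x y z w, x < y ∧ y < z ∧ z < w ∧ e = {x, y, z, w} ∧ redq A x y z w

lemma strictMono_vec {x y z w : ℕ} (h1 : x < y) (h2 : y < z) (h3 : z < w) :
    StrictMono (![x, y, z, w] : Fin 4 → ℕ) := by
  intro i j hij
  fin_cases i <;> fin_cases j <;> simp at hij ⊢ <;> omega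

lemma card_four {x y z w : ℕ} (h1 : x < y) (h2 : y < z) (h3 : z < w) :
    ({x, y, z, w} : Finset ℕ).card = 4 := by
  rw [Finset.card_insert_of_notMem, Finset.card_insert_of_notMem, Finset.card_insert_of_notMem,
    Finset.card_singleton]
  · simp; omega
  · simp; omega
  · simp; omega

lemma redS_iff {A : ℕ → ℕ → Prop} {x y z w : ℕ} (h1 : x < y) (h2 : y < z) (h3 : z < w) :
    redS A {x, y, z, w} ↔ redq A x y z w := by
  constructor
  · rintro ⟨x', y', z', w', h1', h2', h3', he, hr⟩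
    have hc := card_four h1 h2 h3
    have e1 := Finset.orderEmbOfFin_unique hc (f := ![x, y, z, w]) (by
      intro i
      fin_cases i <;> simp) (strictMono_vec h1 h2 h3)
    have e2 := Finset.orderEmbOfFin_unique hc (f := ![x', y', z', w']) (by
      intro i
      rw [he]
      fin_cases i <;> simp) (strictMono_vec h1' h2' h3')
    have e3 := e1.trans e2.symm
    have f0 : x = x' := congrFun e3 0
    have f1 : y = y' := congrFun e3 1
    have f2 : z = z' := congrFun e3 2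
    have f3 : w = w' := congrFun e3 3
    rw [f0, f1, f2, f3]
    exact hr
  · intro hr
    exact ⟨x, y, z, w, h1, h2, h3, rfl, hr⟩

lemma mem_four {S : Finset ℕ} {x y z w : ℕ} (hx : x ∈ S) (hy : y ∈ S) (hz : z ∈ S) (hw : w ∈ S)
    (h1 : x < y) (h2 : y < z) (h3 : z < w) : ({x, y, z, w} : Finset ℕ) ∈ S.powersetCard 4 := by
  rw [Finset.mem_powersetCard]
  refine ⟨?_, card_four h1 h2 h3⟩
  intro i hi
  simp only [Finset.mem_insert, Finset.mem_singleton] at hi
  rcases hi with rfl | rfl | rfl | rfl <;> assumption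

/-- no red `7`-sets -/
theorem no_red (A : ℕ → ℕ → Prop) (S : Finset ℕ) (hS : S.card = 7) :
    ∃ e ∈ S.powersetCard 4, ¬ redS A e := by
  by_contra hcon
  push Not at hcon
  obtain ⟨L, hL, -, hLt⟩ := exists_levels A S 2 (by omega) True (by
    intro x hx y hy z hz w hw h1 h2 h3
    have := hcon _ (mem_four hx hy hz hw h1 h2 h3)
    rw [redS_iff h1 h2 h3] at this
    exact ⟨fun _ => trivial, fun _ => this⟩)
  obtain ⟨x, hxL, hx⟩ := exists_enum L
  have h1 := (hLt (x 0) (hxL 0 (by omega)) (x 1) (hxL 1 (by omega)) (x 2) (hxL 2 (by omega))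
    (hx 0 1 (by omega) (by omega)) (hx 1 2 (by omega) (by omega))).2 trivial
  have h2 := (hLt (x 1) (hxL 1 (by omega)) (x 2) (hxL 2 (by omega)) (x 3) (hxL 3 (by omega))
    (hx 1 2 (by omega) (by omega)) (hx 2 3 (by omega) (by omega))).2 trivial
  exact h1.2 h2.1

/-- the relation on levels given by a graph -/
def rel {m : ℕ} (G : SimpleGraph (Fin m)) (a b : ℕ) : Prop :=
  ∃ u v : Fin m, (u : ℕ) + 1 = a ∧ (v : ℕ) + 1 = b ∧ G.Adj u v

lemma rel_iff {m : ℕ} (G : SimpleGraph (Fin m)) (u v : Fin m) :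
    rel G ((u : ℕ) + 1) ((v : ℕ) + 1) ↔ G.Adj u v := by
  constructor
  · rintro ⟨u', v', h1, h2, h3⟩
    have e1 : u' = u := Fin.ext (by omega)
    have e2 : v' = v := Fin.ext (by omega)
    rw [e1, e2] at h3
    exact h3
  · intro h
    exact ⟨u, v, rfl, rfl, h⟩

lemma lift_card {m : ℕ} (L : Finset ℕ) (hL : ∀ e ∈ L, 1 ≤ e ∧ e ≤ m) :
    (Finset.univ.filter (fun u : Fin m => (u : ℕ) + 1 ∈ L)).card = L.card := by
  apply Finset.card_bij (fun (u : Fin m) _ => (u : ℕ) + 1)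
  · intro u hu
    exact (Finset.mem_filter.1 hu).2
  · intro u _ v _ h
    exact Fin.ext (by omega)
  · intro e he
    obtain ⟨h1, h2⟩ := hL e he
    refine ⟨⟨e - 1, by omega⟩, ?_, ?_⟩
    · rw [Finset.mem_filter]
      refine ⟨Finset.mem_univ _, ?_⟩
      show e - 1 + 1 ∈ L
      rw [Nat.sub_add_cancel h1]
      exact he
    · show e - 1 + 1 = e
      omega

open Pool.Agent.H818R2.Ram in
/-- no blue sets of size `4 s - 1` -/
theorem no_blue {m s : ℕ} (hs : 1 ≤ s) (G : SimpleGraph (Fin m)) (h1 : ¬ HasRed G univ s)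
    (h2 : ¬ HasBlue G univ s) (S : Finset ℕ) (hSm : ∀ x ∈ S, x < 2 ^ m) (hS : 4 * s - 1 ≤ S.card) :
    ∃ e ∈ S.powersetCard 4, redS (rel G) e := by
  classical
  by_contra hcon
  push Not at hcon
  obtain ⟨L, hL, hLlev, hLt⟩ := exists_levels (rel G) S (2 * s - 2) (by omega) False (by
    intro x hx y hy z hz w hw h1 h2 h3
    have := hcon _ (mem_four hx hy hz hw h1 h2 h3)
    rw [redS_iff h1 h2 h3] at this
    exact ⟨fun h => this h, fun h => h.elim⟩)
  have hLm : ∀ e ∈ L, 1 ≤ e ∧ e ≤ m := by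
    intro e he
    obtain ⟨x, hx, y, hy, hxy, rfl⟩ := hLlev e he
    exact ⟨lev_pos hxy.ne, lev_le_of_lt (hSm x hx) (hSm y hy)⟩
  set L1 := L.filter (fun y => ∃ x ∈ L, x < y ∧ rel G x y) with hL1
  set L0 := L.filter (fun y => ¬ ∃ x ∈ L, x < y ∧ rel G x y) with hL0
  have hsum : L1.card + L0.card = L.card := Finset.card_filter_add_card_filter_not _
  have hL1m : ∀ e ∈ L1, 1 ≤ e ∧ e ≤ m := fun e he => hLm e (Finset.mem_filter.1 he).1
  have hL0m : ∀ e ∈ L0, 1 ≤ e ∧ e ≤ m := fun e he => hLm e (Finset.mem_filter.1 he).1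
  have hcase : s ≤ L1.card ∨ s ≤ L0.card := by omega
  rcases hcase with hc | hc
  · apply h1
    obtain ⟨T, hT, hTs⟩ := Finset.exists_subset_card_eq
      (s := Finset.univ.filter (fun u : Fin m => (u : ℕ) + 1 ∈ L1)) (n := s)
      (by rw [lift_card L1 hL1m]; exact hc)
    refine ⟨T, Finset.subset_univ _, ?_⟩
    rw [SimpleGraph.isNClique_iff]
    refine ⟨?_, hTs⟩
    have hmem : ∀ u ∈ T, (u : ℕ) + 1 ∈ L1 := fun u hu => (Finset.mem_filter.1 (hT hu)).2
    have key : ∀ u ∈ T, ∀ v ∈ T, (u : ℕ) < v → G.Adj u v := by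
      intro u hu v hv huv
      have hu1 := Finset.mem_filter.1 (hmem u hu)
      have hv1 := Finset.mem_filter.1 (hmem v hv)
      obtain ⟨x, hx, hxu, hrel⟩ := hu1.2
      have h3 := hLt x hx _ hu1.1 _ hv1.1 hxu (by omega)
      by_contra hadj
      exact h3.1 ⟨hrel, fun h => hadj ((rel_iff G u v).1 h)⟩
    intro u hu v hv huv
    have hne : (u : ℕ) ≠ v := fun h => huv (Fin.ext h)
    rcases lt_or_gt_of_ne hne with h | h
    · exact key u hu v hv h
    · exact (key v hv u hu h).symm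
  · apply h2
    obtain ⟨T, hT, hTs⟩ := Finset.exists_subset_card_eq
      (s := Finset.univ.filter (fun u : Fin m => (u : ℕ) + 1 ∈ L0)) (n := s)
      (by rw [lift_card L0 hL0m]; exact hc)
    refine ⟨T, Finset.subset_univ _, ?_⟩
    rw [SimpleGraph.isNClique_iff]
    refine ⟨?_, hTs⟩
    have hmem : ∀ u ∈ T, (u : ℕ) + 1 ∈ L0 := fun u hu => (Finset.mem_filter.1 (hT hu)).2
    have key : ∀ u ∈ T, ∀ v ∈ T, (u : ℕ) < v → ¬ G.Adj u v := by
      intro u hu v hv huv hadj
      have hu1 := Finset.mem_filter.1 (hmem u hu)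
      have hv1 := Finset.mem_filter.1 (hmem v hv)
      apply hv1.2
      exact ⟨_, hu1.1, by omega, (rel_iff G u v).2 hadj⟩
    intro u hu v hv huv
    rw [SimpleGraph.compl_adj]
    refine ⟨huv, ?_⟩
    have hne : (u : ℕ) ≠ v := fun h => huv (Fin.ext h)
    rcases lt_or_gt_of_ne hne with h | h
    · exact key u hu v hv h
    · exact fun hh => key v hv u hu h hh.symm

open Pool.Agent.H818R2.Ram in
/-- the doubly exponential colouring of the `4`-sets -/
theorem exists_red {s : ℕ} (hs : 3 ≤ s) : ∃ m : ℕ, 2 ^ s < (m + 1) ^ 2 ∧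
    ∃ red : Finset ℕ → Prop, (∀ S : Finset ℕ, S.card = 7 → ∃ e ∈ S.powersetCard 4, ¬ red e) ∧
      ∀ S : Finset ℕ, (∀ x ∈ S, x < 2 ^ m) → 4 * s - 1 ≤ S.card →
        ∃ e ∈ S.powersetCard 4, red e := by
  have h1 := erdos_lower hs
  have hpos : 0 < R s s := R_pos (by omega) (by omega)
  obtain ⟨G, hG1, hG2⟩ := exists_coloring (n := R s s - 1) (k := s) (l := s) (by omega)
  refine ⟨R s s - 1, ?_, redS (rel G), fun S hS => no_red _ S hS, ?_⟩
  · rw [Nat.sub_add_cancel hpos]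
    exact h1
  · intro S hSm hS
    exact no_blue (by omega) G hG1 hG2 S hSm hS

end Q119.SU
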