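import Mathlib

set_option autoImplicit false

open Finset

namespace Q119.SU

variable {α : Type*} [DecidableEq α]

lemma deg_le (S : Finset α) (v : α) (hv : v ∈ S) :
    ((S.powersetCard 4).filter (fun e => v ∈ e)).card ≤ (S.card - 1).choose 3 := by
  rw [← Finset.card_erase_of_mem hv, ← Finset.card_powersetCard]
  apply Finset.card_le_card_of_injOn (fun e => e.erase v)
  · intro e he
    simp only [Finset.coe_filter, Set.mem_ofPred_eq, Finset.mem_powersetCard] at he
    simp only [Finset.mem_coe, Finset.mem_powersetCard]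
    refine ⟨Finset.erase_subset_erase _ he.1.1, ?_⟩
    rw [Finset.card_erase_of_mem he.2, he.1.2]
  · intro e he f hf hef
    simp only [Finset.coe_filter, Set.mem_ofPred_eq] at he hf
    have h1 := congrArg (insert v) hef
    beta_reduce at h1
    rw [Finset.insert_erase he.2, Finset.insert_erase hf.2] at h1
    exact h1

lemma super_le (S e : Finset α) (he : e ∈ S.powersetCard 4) :
    ((S.powersetCard 7).filter (fun T => e ⊆ T)).card ≤ (S.card - 4).choose 3 := by
  rw [Finset.mem_powersetCard] at he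
  rw [← he.2, ← Finset.card_sdiff_of_subset he.1, ← Finset.card_powersetCard]
  apply Finset.card_le_card_of_injOn (fun T => T \ e)
  · intro T hT
    simp only [Finset.coe_filter, Set.mem_ofPred_eq, Finset.mem_powersetCard] at hT
    simp only [Finset.mem_coe, Finset.mem_powersetCard]
    refine ⟨Finset.sdiff_subset_sdiff hT.1.1 subset_rfl, ?_⟩
    rw [Finset.card_sdiff_of_subset hT.2, hT.1.2, he.2]
  · intro T hT T' hT' h
    simp only [Finset.coe_filter, Set.mem_ofPred_eq] at hT hT'
    beta_reduce at h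
    rw [← Finset.sdiff_union_of_subset hT.2, h, Finset.sdiff_union_of_subset hT'.2]

lemma sum_deg (S : Finset α) (p : Finset α → Prop) [DecidablePred p] :
    ∑ v ∈ S, ((S.powersetCard 4).filter (fun e => v ∈ e ∧ p e)).card =
      4 * ((S.powersetCard 4).filter p).card := by
  have h1 : ∀ v ∈ S, ((S.powersetCard 4).filter (fun e => v ∈ e ∧ p e)).card =
      ∑ e ∈ (S.powersetCard 4).filter p, if v ∈ e then 1 else 0 := by
    intro v _
    rw [Finset.sum_boole, Finset.filter_filter]
    simp only [Nat.cast_id]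
    congr 1
    ext e
    simp only [Finset.mem_filter]
    tauto
  rw [Finset.sum_congr rfl h1, Finset.sum_comm]
  have h2 : ∀ e ∈ (S.powersetCard 4).filter p, (∑ v ∈ S, if v ∈ e then 1 else 0) = 4 := by
    intro e he
    rw [Finset.mem_filter, Finset.mem_powersetCard] at he
    rw [Finset.sum_boole]
    simp only [Nat.cast_id]
    rw [← he.1.2]
    congr 1
    ext v
    rw [Finset.mem_filter]
    exact ⟨fun h => h.2, fun h => ⟨he.1.1 h, h⟩⟩
  rw [Finset.sum_congr rfl h2, Finset.sum_const, smul_eq_mul, mul_comm]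

/-- colour with full minimum degree: all `4`-sets have it -/
lemma all_of_deg (S : Finset α) (p : Finset α → Prop) [DecidablePred p]
    (h : ∀ v ∈ S, (S.card - 1).choose 3 ≤
      ((S.powersetCard 4).filter (fun e => v ∈ e ∧ p e)).card) :
    ∀ e ∈ S.powersetCard 4, p e := by
  intro e he
  have he' := Finset.mem_powersetCard.1 he
  have hne : e.Nonempty := by
    rw [← Finset.card_pos, he'.2]
    norm_num
  obtain ⟨v, hv⟩ := hne
  have hvS := he'.1 hv
  have hsub : (S.powersetCard 4).filter (fun e => v ∈ e ∧ p e) ⊆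
      (S.powersetCard 4).filter (fun e => v ∈ e) := by
    intro f hf
    rw [Finset.mem_filter] at hf ⊢
    exact ⟨hf.1, hf.2.1⟩
  have heq := Finset.eq_of_subset_of_card_le hsub ((deg_le S v hvS).trans (h v hvS))
  have hmem : e ∈ (S.powersetCard 4).filter (fun e => v ∈ e) :=
    Finset.mem_filter.2 ⟨he, hv⟩
  rw [← heq, Finset.mem_filter] at hmem
  exact hmem.2.2

/-- a colour of minimum degree density at least `35/36` contains a complete `7`-set -/
lemma seven_of_deg (S : Finset α) (p : Finset α → Prop) [DecidablePred p] (hS : 7 ≤ S.card)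
    (h : ∀ v ∈ S, (35 / 36 : ℝ) * ((S.card - 1).choose 3 : ℕ) ≤
      (((S.powersetCard 4).filter (fun e => v ∈ e ∧ p e)).card : ℝ)) :
    ∃ T ⊆ S, T.card = 7 ∧ ∀ e ∈ T.powersetCard 4, p e := by
  by_contra hcon
  push Not at hcon
  set ℓ := S.card with hℓ
  -- number of sets of the colour
  have h1 : (ℓ : ℝ) * ((35 / 36 : ℝ) * ((ℓ - 1).choose 3 : ℕ)) ≤
      4 * (((S.powersetCard 4).filter p).card : ℝ) := by
    have h2 := Finset.sum_le_sum h
    rw [Finset.sum_const, nsmul_eq_mul, ← hℓ] at h2
    refine h2.trans (le_of_eq ?_)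
    have h3 := sum_deg S p
    exact_mod_cast h3
  have h4 : ℓ * (ℓ - 1).choose 3 = 4 * ℓ.choose 4 := by
    have := Nat.add_one_mul_choose_eq (ℓ - 1) 3
    rw [show ℓ - 1 + 1 = ℓ by omega] at this
    rw [this]
    ring
  have h4' : (ℓ : ℝ) * ((ℓ - 1).choose 3 : ℕ) = 4 * (ℓ.choose 4 : ℕ) := by exact_mod_cast h4
  have h5 : (35 / 36 : ℝ) * (ℓ.choose 4 : ℕ) ≤ (((S.powersetCard 4).filter p).card : ℝ) := by
    nlinarith
  have h6 : ((S.powersetCard 4).filter p).card +
      ((S.powersetCard 4).filter (fun e => ¬ p e)).card = ℓ.choose 4 := by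
    rw [Finset.card_filter_add_card_filter_not, Finset.card_powersetCard]
  have h6' : (((S.powersetCard 4).filter p).card : ℝ) +
      (((S.powersetCard 4).filter (fun e => ¬ p e)).card : ℝ) = (ℓ.choose 4 : ℕ) := by
    exact_mod_cast h6
  -- double counting
  have h7 : ℓ.choose 7 ≤
      ((S.powersetCard 4).filter (fun e => ¬ p e)).card * (ℓ - 4).choose 3 := by
    rw [← Finset.card_powersetCard 7 S]
    calc (S.powersetCard 7).card
        ≤ (((S.powersetCard 4).filter (fun e => ¬ p e)).biUnion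
            (fun e => (S.powersetCard 7).filter (fun T => e ⊆ T))).card := by
          apply Finset.card_le_card
          intro T hT
          have hT' := Finset.mem_powersetCard.1 hT
          obtain ⟨e, he, hpe⟩ := hcon T hT'.1 hT'.2
          have he' := Finset.mem_powersetCard.1 he
          rw [Finset.mem_biUnion]
          refine ⟨e, ?_, ?_⟩
          · rw [Finset.mem_filter, Finset.mem_powersetCard]
            exact ⟨⟨he'.1.trans hT'.1, he'.2⟩, hpe⟩
          · rw [Finset.mem_filter]
            exact ⟨hT, he'.1⟩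
      _ ≤ ∑ e ∈ (S.powersetCard 4).filter (fun e => ¬ p e),
            ((S.powersetCard 7).filter (fun T => e ⊆ T)).card := Finset.card_biUnion_le
      _ ≤ ∑ _e ∈ (S.powersetCard 4).filter (fun e => ¬ p e), (ℓ - 4).choose 3 := by
          apply Finset.sum_le_sum
          intro e he
          exact super_le S e (Finset.mem_filter.1 he).1
      _ = _ := by rw [Finset.sum_const, smul_eq_mul]
  have h8 : ℓ.choose 7 * 35 = ℓ.choose 4 * (ℓ - 4).choose 3 := by
    have := Nat.choose_mul (n := ℓ) (k := 7) (s := 4) (by norm_num)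
    have h9 : Nat.choose 7 4 = 35 := by decide
    rw [h9] at this
    exact this
  have h8' : ((ℓ.choose 7 : ℕ) : ℝ) * 35 = (ℓ.choose 4 : ℕ) * ((ℓ - 4).choose 3 : ℕ) := by
    exact_mod_cast h8
  have h7' : ((ℓ.choose 7 : ℕ) : ℝ) ≤
      (((S.powersetCard 4).filter (fun e => ¬ p e)).card : ℝ) * ((ℓ - 4).choose 3 : ℕ) := by
    exact_mod_cast h7
  have h10 : (0 : ℝ) < (ℓ.choose 7 : ℕ) := by
    exact_mod_cast Nat.choose_pos hS
  have h11 : (((S.powersetCard 4).filter (fun e => ¬ p e)).card : ℝ) ≤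
      (ℓ.choose 4 : ℕ) / 36 := by linarith
  have h12 : (0 : ℝ) ≤ ((ℓ - 4).choose 3 : ℕ) := Nat.cast_nonneg _
  have h13 : ((ℓ.choose 7 : ℕ) : ℝ) ≤ (ℓ.choose 4 : ℕ) / 36 * ((ℓ - 4).choose 3 : ℕ) :=
    h7'.trans (mul_le_mul_of_nonneg_right h11 h12)
  have h14 : ((ℓ.choose 4 : ℕ) : ℝ) / 36 * ((ℓ - 4).choose 3 : ℕ) =
      ((ℓ.choose 7 : ℕ) : ℝ) * 35 / 36 := by
    rw [h8']
    ring
  rw [h14] at h13
  linarith

end Q119.SU
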