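import Pool.Agent.Q119.SU.Color
import Pool.Agent.Q119.SU.Count

set_option autoImplicit false

open Finset Filter

namespace Q119.SU

lemma map_four {n : ℕ} (S : Finset (Fin n)) {e' : Finset ℕ}
    (he' : e' ∈ (S.map Fin.valEmbedding).powersetCard 4) :
    ∃ e ∈ S.powersetCard 4, e.map Fin.valEmbedding = e' := by
  rw [Finset.mem_powersetCard] at he'
  obtain ⟨e, he, rfl⟩ := Finset.subset_map_iff.1 he'.1
  refine ⟨e, ?_, rfl⟩
  rw [Finset.mem_powersetCard]
  exact ⟨he, by rw [← he'.2, Finset.card_map]⟩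

open Classical in
/-- the colouring on `Fin n` -/
noncomputable def phi (red : Finset ℕ → Prop) (n : ℕ) (e : Finset (Fin n)) : Fin 2 :=
  if red (e.map Fin.valEmbedding) then 1 else 0

lemma phi_one {red : Finset ℕ → Prop} {n : ℕ} {e : Finset (Fin n)} (h : phi red n e = 1) :
    red (e.map Fin.valEmbedding) := by
  unfold phi at h
  split_ifs at h with h1
  · exact h1
  · exact absurd h (by decide)

lemma phi_zero {red : Finset ℕ → Prop} {n : ℕ} {e : Finset (Fin n)} (h : phi red n e = 0) :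
    ¬ red (e.map Fin.valEmbedding) := by
  unfold phi at h
  split_ifs at h with h1
  · exact absurd h (by decide)
  · exact h1

/-- the colouring beats `ρ = (1, 35/36)` -/
theorem bad_coloring {s m n : ℕ} (hs : 3 ≤ s) (hn : n ≤ 2 ^ m) (red : Finset ℕ → Prop)
    (h1 : ∀ S : Finset ℕ, S.card = 7 → ∃ e ∈ S.powersetCard 4, ¬ red e)
    (h2 : ∀ S : Finset ℕ, (∀ x ∈ S, x < 2 ^ m) → 4 * s - 1 ≤ S.card →
        ∃ e ∈ S.powersetCard 4, red e)
    (S : Finset (Fin n)) (hS : 4 * s - 1 ≤ S.card) (j : Fin 2)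
    (h : ∀ v ∈ S, (![1, 35 / 36] : Fin 2 → ℝ) j * (((S.card - 1).choose (4 - 1) : ℕ) : ℝ) ≤
      (((S.powersetCard 4).filter (fun e => v ∈ e ∧ phi red n e = j)).card : ℝ)) : False := by
  classical
  have hj : j = 0 ∨ j = 1 := by
    revert j
    intro j _
    fin_cases j
    · exact Or.inl rfl
    · exact Or.inr rfl
  rcases hj with rfl | rfl
  · have hall := all_of_deg S (fun e => phi red n e = 0) (by
      intro v hv
      have h3 := h v hv
      simp only [Matrix.cons_val_zero, one_mul] at h3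
      exact_mod_cast h3)
    obtain ⟨e', he', hred⟩ := h2 (S.map Fin.valEmbedding) (by
      intro x hx
      obtain ⟨y, _, rfl⟩ := Finset.mem_map.1 hx
      exact lt_of_lt_of_le y.2 hn) (by rw [Finset.card_map]; exact hS)
    obtain ⟨e, he, rfl⟩ := map_four S he'
    exact phi_zero (hall e he) hred
  · obtain ⟨T, hTS, hT7, hT⟩ := seven_of_deg S (fun e => phi red n e = 1) (by omega) (by
      intro v hv
      have h3 := h v hv
      simp only [Matrix.cons_val_one] at h3
      exact h3)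
    obtain ⟨e', he', hred⟩ := h1 (T.map Fin.valEmbedding) (by rw [Finset.card_map, hT7])
    obtain ⟨e, he, rfl⟩ := map_four T he'
    exact hred (phi_one (hT e he))

/-- exponential growth -/
theorem growth (A : ℝ) (d : ℕ) : ∃ s : ℕ, 3 ≤ s ∧ A * (4 * s : ℝ) ^ d < 2 ^ s := by
  have h1 := tendsto_pow_const_div_const_pow_of_one_lt d (r := (2 : ℝ)) (by norm_num)
  have h2 : ∀ᶠ s : ℕ in atTop, (s : ℝ) ^ d / 2 ^ s < 1 / ((|A| + 1) * 4 ^ d) :=
    h1.eventually (gt_mem_nhds (by positivity))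
  obtain ⟨s, hs1, hs2⟩ := (h2.and (eventually_ge_atTop 3)).exists
  refine ⟨s, hs2, ?_⟩
  rw [div_lt_div_iff₀ (by positivity) (by positivity), one_mul] at hs1
  have hpos : (0 : ℝ) ≤ (4 * s : ℝ) ^ d := by positivity
  calc A * (4 * s : ℝ) ^ d ≤ (|A| + 1) * (4 * s : ℝ) ^ d := by
        apply mul_le_mul_of_nonneg_right _ hpos
        linarith [le_abs_self A]
    _ = (s : ℝ) ^ d * ((|A| + 1) * 4 ^ d) := by rw [mul_pow]; ring
    _ < 2 ^ s := hs1

end Q119.SU
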