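import Mathlib

set_option autoImplicit false

open Finset

namespace Q119.SU

/-- the least `d` such that `x` and `y` agree after deleting the last `d` binary digits -/
noncomputable def lev (x y : ℕ) : ℕ := sInf {d | x / 2 ^ d = y / 2 ^ d}

lemma div_pow_mono {x y d e : ℕ} (h : d ≤ e) (hxy : x / 2 ^ d = y / 2 ^ d) :
    x / 2 ^ e = y / 2 ^ e := by
  obtain ⟨c, rfl⟩ := Nat.exists_eq_add_of_le h
  rw [pow_add, ← Nat.div_div_eq_div_mul, ← Nat.div_div_eq_div_mul, hxy]

lemma lev_nonempty (x y : ℕ) : {d | x / 2 ^ d = y / 2 ^ d}.Nonempty := by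
  refine ⟨x + y, ?_⟩
  have h1 : x < 2 ^ (x + y) :=
    lt_of_lt_of_le Nat.lt_two_pow_self (Nat.pow_le_pow_right (by norm_num) (by omega))
  have h2 : y < 2 ^ (x + y) :=
    lt_of_lt_of_le Nat.lt_two_pow_self (Nat.pow_le_pow_right (by norm_num) (by omega))
  show x / _ = y / _
  rw [Nat.div_eq_of_lt h1, Nat.div_eq_of_lt h2]

lemma lev_le_iff (x y d : ℕ) : lev x y ≤ d ↔ x / 2 ^ d = y / 2 ^ d := by
  constructor
  · intro h
    exact div_pow_mono h (Nat.sInf_mem (lev_nonempty x y))
  · intro h
    exact Nat.sInf_le h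

lemma lev_max {x y z : ℕ} (hxy : x ≤ y) (hyz : y ≤ z) : lev x z = max (lev x y) (lev y z) := by
  apply eq_of_forall_ge_iff
  intro d
  rw [max_le_iff, lev_le_iff, lev_le_iff, lev_le_iff]
  have h1 : x / 2 ^ d ≤ y / 2 ^ d := Nat.div_le_div_right hxy
  have h2 : y / 2 ^ d ≤ z / 2 ^ d := Nat.div_le_div_right hyz
  omega

lemma lev_pos {x y : ℕ} (h : x ≠ y) : 1 ≤ lev x y := by
  by_contra h1
  have h2 : lev x y ≤ 0 := by omega
  rw [lev_le_iff] at h2
  simp at h2
  exact h h2

lemma lev_ne {x y z : ℕ} (hxy : x < y) (hyz : y < z) : lev x y ≠ lev y z := by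
  intro heq
  obtain ⟨d, hd⟩ : ∃ d, lev x y = d + 1 := ⟨lev x y - 1, by have := lev_pos hxy.ne; omega⟩
  have h1 : ¬ lev x y ≤ d := by omega
  have h2 : ¬ lev y z ≤ d := by omega
  have h3 : lev x y ≤ d + 1 := by omega
  have h4 : lev y z ≤ d + 1 := by omega
  rw [lev_le_iff] at h1 h2 h3 h4
  rw [pow_succ, ← Nat.div_div_eq_div_mul, ← Nat.div_div_eq_div_mul] at h3 h4
  have h5 : x / 2 ^ d ≤ y / 2 ^ d := Nat.div_le_div_right hxy.le
  have h6 : y / 2 ^ d ≤ z / 2 ^ d := Nat.div_le_div_right hyz.le
  omega

lemma lev_le_of_lt {x y m : ℕ} (hx : x < 2 ^ m) (hy : y < 2 ^ m) : lev x y ≤ m := by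
  rw [lev_le_iff, Nat.div_eq_of_lt hx, Nat.div_eq_of_lt hy]

/-- the red quadruples, in terms of the three levels -/
def redL (A : ℕ → ℕ → Prop) (d₁ d₂ d₃ : ℕ) : Prop :=
  (d₂ < d₁ ∧ d₂ < d₃) ∨ (d₁ < d₂ ∧ d₂ < d₃ ∧ A d₁ d₂ ∧ ¬ A d₂ d₃) ∨
    (d₂ < d₁ ∧ d₃ < d₂ ∧ A d₃ d₂ ∧ ¬ A d₂ d₁)

/-- the red quadruples `x < y < z < w` -/
def redq (A : ℕ → ℕ → Prop) (x y z w : ℕ) : Prop := redL A (lev x y) (lev y z) (lev z w)

section run

variable {x : ℕ → ℕ} {k : ℕ} (hx : ∀ i j, i < j → j < k → x i < x j)

include hx in
lemma run_dec {a b : ℕ} (hb : b + 1 < k)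
    (hd : ∀ i, a ≤ i → i < b → lev (x (i + 1)) (x (i + 2)) < lev (x i) (x (i + 1))) :
    ∀ i j, a ≤ i → i < j → j ≤ b + 1 → lev (x i) (x j) = lev (x i) (x (i + 1)) := by
  have hanti : ∀ i j, a ≤ i → i < j → j ≤ b →
      lev (x j) (x (j + 1)) < lev (x i) (x (i + 1)) := by
    intro i j hi hij hj
    induction j, hij using Nat.le_induction with
    | base => exact hd i hi (by omega)
    | succ j hj' ih => exact (hd j (by omega) (by omega)).trans (ih (by omega))
  intro i j hi hij hj
  induction j, hij using Nat.le_induction with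
  | base => rfl
  | succ j hj' ih =>
    rw [lev_max (hx i j (by omega) (by omega)).le (hx j (j + 1) (by omega) (by omega)).le,
      ih (by omega)]
    exact max_eq_left (hanti i j hi (by omega) (by omega)).le

include hx in
lemma run_inc {a b : ℕ} (hb : b + 1 < k)
    (hd : ∀ i, a ≤ i → i < b → lev (x i) (x (i + 1)) < lev (x (i + 1)) (x (i + 2))) :
    ∀ i j, a ≤ i → i ≤ j → j ≤ b → lev (x i) (x (j + 1)) = lev (x j) (x (j + 1)) := by
  intro i j hi hij hj
  induction j, hij using Nat.le_induction with
  | base => rfl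
  | succ j hj' ih =>
    rw [lev_max (hx i (j + 1) (by omega) (by omega)).le
      (hx (j + 1) (j + 1 + 1) (by omega) (by omega)).le, ih (by omega)]
    exact max_eq_right (hd j (by omega) (by omega)).le

end run

lemma anti_of_step {f : ℕ → ℕ} {a b : ℕ} (hd : ∀ i, a ≤ i → i < b → f (i + 1) < f i) :
    ∀ i j, a ≤ i → i < j → j ≤ b → f j < f i := by
  intro i j hi hij hj
  induction j, hij using Nat.le_induction with
  | base => exact hd i hi (by omega)
  | succ j hj' ih => exact (hd j (by omega) (by omega)).trans (ih (by omega))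

lemma mono_of_step {f : ℕ → ℕ} {a b : ℕ} (hd : ∀ i, a ≤ i → i < b → f i < f (i + 1)) :
    ∀ i j, a ≤ i → i < j → j ≤ b → f i < f j := by
  intro i j hi hij hj
  induction j, hij using Nat.le_induction with
  | base => exact hd i hi (by omega)
  | succ j hj' ih => exact (ih (by omega)).trans (hd j (by omega) (by omega))

/-- enumeration of a finite set -/
lemma exists_enum (S : Finset ℕ) : ∃ x : ℕ → ℕ, (∀ i, i < S.card → x i ∈ S) ∧
    ∀ i j, i < j → j < S.card → x i < x j := by
  classical
  refine ⟨fun i => if h : i < S.card then S.orderEmbOfFin rfl ⟨i, h⟩ else 0, ?_, ?_⟩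
  · intro i hi
    beta_reduce
    rw [dif_pos hi]
    exact S.orderEmbOfFin_mem rfl _
  · intro i j hij hj
    beta_reduce
    rw [dif_pos (hij.trans hj), dif_pos hj]
    exact (S.orderEmbOfFin rfl).strictMono hij

/-- if all quadruples of `S` have the same colour, many levels have triples of that colour -/
theorem exists_levels (A : ℕ → ℕ → Prop) (S : Finset ℕ) (h : ℕ) (hS : 2 * h + 3 ≤ S.card)
    (c : Prop)
    (hc : ∀ x ∈ S, ∀ y ∈ S, ∀ z ∈ S, ∀ w ∈ S, x < y → y < z → z < w → (redq A x y z w ↔ c)) :
    ∃ L : Finset ℕ, h + 2 ≤ L.card ∧ (∀ e ∈ L, ∃ x ∈ S, ∃ y ∈ S, x < y ∧ e = lev x y) ∧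
      ∀ e₁ ∈ L, ∀ e₂ ∈ L, ∀ e₃ ∈ L, e₁ < e₂ → e₂ < e₃ → ((A e₁ e₂ ∧ ¬ A e₂ e₃) ↔ c) := by
  classical
  obtain ⟨x, hxS, hx⟩ := exists_enum S
  set k := S.card with hk
  let d : ℕ → ℕ := fun i => lev (x i) (x (i + 1))
  have hne : ∀ i, i + 2 < k → d i ≠ d (i + 1) := fun i hi =>
    lev_ne (hx i (i + 1) (by omega) (by omega)) (hx (i + 1) (i + 2) (by omega) hi)
  have hred : ∀ i, i + 3 < k → (redL A (d i) (d (i + 1)) (d (i + 2)) ↔ c) := fun i hi =>
    hc _ (hxS i (by omega)) _ (hxS (i + 1) (by omega)) _ (hxS (i + 2) (by omega)) _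
      (hxS (i + 3) (by omega)) (hx _ _ (by omega) (by omega)) (hx _ _ (by omega) (by omega))
      (hx _ _ (by omega) (by omega))
  -- a monotone run of `h + 2` levels
  have hrun : ∃ a, a + (h + 1) + 1 < k ∧
      ((∀ i, a ≤ i → i < a + (h + 1) → d (i + 1) < d i) ∨
        (∀ i, a ≤ i → i < a + (h + 1) → d i < d (i + 1))) := by
    by_cases hcp : c
    · -- no local maximum
      have hloc : ∀ i, i + 3 < k → d i < d (i + 1) → d (i + 1) < d (i + 2) := by
        intro i hi h1
        have h2 := (hred i hi).2 hcp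
        have h3 : d (i + 1) ≠ d (i + 2) := hne (i + 1) (by omega)
        unfold redL at h2
        omega
      have hup : ∀ i, h ≤ i → d h < d (h + 1) → i + 2 < k → d i < d (i + 1) := by
        intro i hi h1 hik
        induction i, hi using Nat.le_induction with
        | base => exact h1
        | succ i hi ih => exact hloc i (by omega) (ih (by omega))
      by_cases h1 : d h < d (h + 1)
      · refine ⟨h, by omega, Or.inr fun i hi1 hi2 => hup i hi1 h1 (by omega)⟩
      · refine ⟨0, by omega, Or.inl ?_⟩
        intro i _ hi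
        have h2 := hne i (by omega)
        by_contra h3
        apply h1
        -- increasing at `i` implies increasing at `h`
        have h4 : d i < d (i + 1) := by omega
        have h5 : ∀ j, i ≤ j → j + 2 < k → d j < d (j + 1) := by
          intro j hj hjk
          induction j, hj using Nat.le_induction with
          | base => exact h4
          | succ j hj ih => exact hloc j (by omega) (ih (by omega))
        exact h5 h (by omega) (by omega)
    · have hloc : ∀ i, i + 3 < k → d (i + 1) < d i → d (i + 2) < d (i + 1) := by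
        intro i hi h1
        have h2 := fun hr => hcp ((hred i hi).1 hr)
        have h3 : d (i + 1) ≠ d (i + 2) := hne (i + 1) (by omega)
        unfold redL at h2
        by_contra h4
        apply h2
        left
        omega
      by_cases h1 : d (h + 1) < d h
      · refine ⟨h, by omega, Or.inl ?_⟩
        intro i hi1 hi2
        induction i, hi1 using Nat.le_induction with
        | base => exact h1
        | succ i hi ih => exact hloc i (by omega) (ih (by omega))
      · refine ⟨0, by omega, Or.inr ?_⟩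
        intro i _ hi
        have h2 := hne i (by omega)
        by_contra h3
        apply h1
        have h4 : d (i + 1) < d i := by omega
        have h5 : ∀ j, i ≤ j → j + 2 < k → d (j + 1) < d j := by
          intro j hj hjk
          induction j, hj using Nat.le_induction with
          | base => exact h4
          | succ j hj ih => exact hloc j (by omega) (ih (by omega))
        exact h5 h (by omega) (by omega)
  obtain ⟨a, ha, hrun⟩ := hrun
  refine ⟨(Finset.Icc a (a + (h + 1))).image d, ?_, ?_, ?_⟩
  · rw [Finset.card_image_of_injOn]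
    · rw [Nat.card_Icc]
      omega
    · intro i hi j hj hij
      rw [Finset.coe_Icc, Set.mem_Icc] at hi hj
      by_contra hne'
      rcases hrun with hrun | hrun
      · rcases lt_or_gt_of_ne hne' with hlt | hlt
        · exact absurd hij (anti_of_step hrun i j hi.1 hlt hj.2).ne'
        · exact absurd hij (anti_of_step hrun j i hj.1 hlt hi.2).ne
      · rcases lt_or_gt_of_ne hne' with hlt | hlt
        · exact absurd hij (mono_of_step hrun i j hi.1 hlt hj.2).ne
        · exact absurd hij (mono_of_step hrun j i hj.1 hlt hi.2).ne'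
  · intro e he
    obtain ⟨i, hi, rfl⟩ := Finset.mem_image.1 he
    rw [Finset.mem_Icc] at hi
    exact ⟨x i, hxS i (by omega), x (i + 1), hxS _ (by omega), hx _ _ (by omega) (by omega), rfl⟩
  · intro e₁ he₁ e₂ he₂ e₃ he₃ h12 h23
    obtain ⟨p, hp, rfl⟩ := Finset.mem_image.1 he₁
    obtain ⟨q, hq, rfl⟩ := Finset.mem_image.1 he₂
    obtain ⟨r, hr, rfl⟩ := Finset.mem_image.1 he₃
    rw [Finset.mem_Icc] at hp hq hr
    rcases hrun with hrun | hrun
    · -- decreasing run: `r < q < p`
      have hrq : r < q := by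
        by_contra hle
        rcases Nat.eq_or_lt_of_le (not_lt.1 hle) with heq | hlt
        · rw [heq] at h23
          exact lt_irrefl _ h23
        · exact absurd (anti_of_step hrun q r hq.1 hlt hr.2) (by omega)
      have hqp : q < p := by
        by_contra hle
        rcases Nat.eq_or_lt_of_le (not_lt.1 hle) with heq | hlt
        · rw [heq] at h12
          exact lt_irrefl _ h12
        · exact absurd (anti_of_step hrun p q hp.1 hlt hq.2) (by omega)
      have hR := run_dec hx ha hrun
      have l1 : lev (x r) (x q) = d r := hR r q hr.1 hrq (by omega)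
      have l2 : lev (x q) (x p) = d q := hR q p hq.1 hqp (by omega)
      have l3 : lev (x p) (x (p + 1)) = d p := rfl
      have key := hc _ (hxS r (by omega)) _ (hxS q (by omega)) _ (hxS p (by omega)) _
        (hxS (p + 1) (by omega)) (hx _ _ hrq (by omega)) (hx _ _ hqp (by omega))
        (hx _ _ (by omega) (by omega))
      rw [← key]
      unfold redq
      rw [l1, l2, l3]
      unfold redL
      constructor
      · intro hA
        right; right
        exact ⟨h23, h12, hA.1, hA.2⟩
      · rintro (hA | hA | hA)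
        · omega
        · omega
        · exact ⟨hA.2.2.1, hA.2.2.2⟩
    · -- increasing run: `p < q < r`
      have hqr : q < r := by
        by_contra hle
        rcases Nat.eq_or_lt_of_le (not_lt.1 hle) with heq | hlt
        · rw [heq] at h23
          exact lt_irrefl _ h23
        · exact absurd (mono_of_step hrun r q hr.1 hlt hq.2) (by omega)
      have hpq : p < q := by
        by_contra hle
        rcases Nat.eq_or_lt_of_le (not_lt.1 hle) with heq | hlt
        · rw [heq] at h12
          exact lt_irrefl _ h12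
        · exact absurd (mono_of_step hrun q p hq.1 hlt hp.2) (by omega)
      have hR := run_inc hx ha hrun
      have l1 : lev (x p) (x (p + 1)) = d p := rfl
      have l2 : lev (x (p + 1)) (x (q + 1)) = d q := hR (p + 1) q (by omega) (by omega) hq.2
      have l3 : lev (x (q + 1)) (x (r + 1)) = d r := hR (q + 1) r (by omega) (by omega) hr.2
      have key := hc _ (hxS p (by omega)) _ (hxS (p + 1) (by omega)) _ (hxS (q + 1) (by omega)) _
        (hxS (r + 1) (by omega)) (hx _ _ (by omega) (by omega)) (hx _ _ (by omega) (by omega))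
        (hx _ _ (by omega) (by omega))
      rw [← key]
      unfold redq
      rw [l1, l2, l3]
      unfold redL
      constructor
      · intro hA
        right; left
        exact ⟨h12, h23, hA.1, hA.2⟩
      · rintro (hA | hA | hA)
        · omega
        · exact ⟨hA.2.2.1, hA.2.2.2⟩
        · omega

end Q119.SU
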